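import Pool.Agent.N928.FG.Stm

/-!
# The Green function of `ℤ⁶`
-/

set_option autoImplicit false

namespace Pool.Agent.N504.FG

open Pool.Agent.N928.FG Pool.Agent.Helper125 Pool.Agent.Helper125.Gam

theorem cd_one (i : Fin 6) : cd (1 : A) i = 0 := rfl

theorem m_one (β : ℝ) (n : ℕ) : m β n 1 = an β n := by
  unfold m an
  refine Finset.prod_congr rfl fun i _ => ?_
  rw [cd_one]

theorem t_GA : S_MU → S_GA := by
  intro hMU β hβ hβ2 u hu hu1
  obtain ⟨h1, h2, h3, h4, h5, h6⟩ := hMU β hβ hβ2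
  have hgeo := summable_geometric_of_lt_one hu hu1
  have han : ∀ n, 0 ≤ an β n ∧ an β n ≤ 1 := fun n =>
    ⟨(h6 n 1).1.trans (h6 n 1).2.1, (h6 n 1).2.2⟩
  have hs : ∀ a, Summable (fun n => m β n a * u ^ n) := by
    intro a
    refine Summable.of_nonneg_of_le (fun n => mul_nonneg (h6 n a).1 (pow_nonneg hu n)) (fun n => ?_) hgeo
    exact mul_le_of_le_one_left (pow_nonneg hu n) ((h6 n a).2.1.trans (h6 n a).2.2)
  have hsa : Summable (fun n => an β n * u ^ n) := by
    refine Summable.of_nonneg_of_le (fun n => mul_nonneg (han n).1 (pow_nonneg hu n)) (fun n => ?_) hgeo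
    exact mul_le_of_le_one_left (pow_nonneg hu n) (han n).2
  have han0 : an β 0 = 1 := by
    rw [← m_one, h4, if_pos rfl]
  refine ⟨fun a => ⟨?_, ?_⟩, ?_, ?_, fun a => ?_⟩
  · exact tsum_nonneg fun n => mul_nonneg (h6 n a).1 (pow_nonneg hu n)
  · exact (hs a).tsum_le_tsum (fun n => mul_le_mul_of_nonneg_right (h6 n a).2.1 (pow_nonneg hu n)) hsa
  · have h7 := hsa.le_tsum 0 (fun n _ => mul_nonneg (han n).1 (pow_nonneg hu n))
    rw [han0, pow_zero, mul_one] at h7
    exact h7
  · unfold Gr GG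
    simp only [m_one]
  · have h7 : ∀ n, m β (n + 1) a * u ^ (n + 1) =
        ∑ c ∈ (mu β).support, u * (mu β c * (m β n (c⁻¹ * a) * u ^ n)) := by
      intro n
      rw [h5, Finsupp.sum, Finset.sum_mul]
      refine Finset.sum_congr rfl fun c _ => ?_
      rw [pow_succ]
      ring
    unfold Gr
    rw [(hs a).tsum_eq_zero_add, h4, pow_zero, mul_one]
    congr 1
    simp only [h7]
    rw [Summable.tsum_finsetSum, Finsupp.sum, Finset.mul_sum]
    · refine Finset.sum_congr rfl fun c _ => ?_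
      rw [tsum_mul_left, tsum_mul_left]
    · intro c _
      exact ((hs _).mul_left _).mul_left _

end Pool.Agent.N504.FG
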